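import Mathlib

/-!
Polynomial networks of depth seven with quadratic activation and two inputs and one output:
reduction of the statement that the image is Zariski dense to a statement about the `65`
coefficients of the dehomogenised output.
-/

set_option autoImplicit false

open Finset

namespace Pool.Agent.R846.PNN

section Net

variable {B B' : Type*} [CommRing B] [CommRing B']

/-- the network of depth seven with quadratic activation and widths `e` -/
def net (e : Fin 8 → ℕ) (W : Fin 7 → ℕ → ℕ → B) (x : ℕ → B) : ℕ → B :=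
  (List.finRange 7).foldl
    (fun (h : ℕ → B) (k : Fin 7) (a : ℕ) =>
      ∑ b ∈ Finset.range (e k.castSucc), W k a b * h b ^ (if (k : ℕ) = 0 then 1 else 2)) x

/-- first layer -/
def lay0 (n : ℕ) (W : ℕ → ℕ → B) (x : ℕ → B) (a : ℕ) : B := ∑ b ∈ range n, W a b * x b

/-- a layer with quadratic activation -/
def lay (n : ℕ) (W : ℕ → ℕ → B) (h : ℕ → B) (a : ℕ) : B := ∑ b ∈ range n, W a b * h b ^ 2

lemma net_eq (e : Fin 8 → ℕ) (W : Fin 7 → ℕ → ℕ → B) (x : ℕ → B) :
    net e W x = lay (e 6) (W 6) (lay (e 5) (W 5) (lay (e 4) (W 4) (lay (e 3) (W 3)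
      (lay (e 2) (W 2) (lay (e 1) (W 1) (lay0 (e 0) (W 0) x)))))) := by
  unfold net lay lay0
  simp [List.finRange_succ]

lemma map_lay0 (φ : B →+* B') (n : ℕ) (W : ℕ → ℕ → B) (x : ℕ → B) (a : ℕ) :
    φ (lay0 n W x a) = lay0 n (fun a b => φ (W a b)) (fun b => φ (x b)) a := by
  simp [lay0, map_sum]

lemma map_lay (φ : B →+* B') (n : ℕ) (W : ℕ → ℕ → B) (x : ℕ → B) (a : ℕ) :
    φ (lay n W x a) = lay n (fun a b => φ (W a b)) (fun b => φ (x b)) a := by
  simp [lay, map_sum]

lemma map_net (φ : B →+* B') (e : Fin 8 → ℕ) (W : Fin 7 → ℕ → ℕ → B) (x : ℕ → B) (a : ℕ) :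
    φ (net e W x a) = net e (fun k a b => φ (W k a b)) (fun b => φ (x b)) a := by
  rw [net_eq, net_eq]
  simp only [map_lay, map_lay0]

/-- Enlarging the widths: weights extended by zero give the same network. -/
lemma net_mono {e e' : Fin 8 → ℕ} (h : e ≤ e') (W : Fin 7 → ℕ → ℕ → B) (x : ℕ → B) :
    net e' (fun k a b => if b < e k.castSucc then W k a b else 0) x = net e W x := by
  unfold net
  congr 1
  funext h' k a
  have hle : e k.castSucc ≤ e' k.castSucc := h _
  rw [← Finset.sum_subset (Finset.range_mono hle)]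
  · apply Finset.sum_congr rfl
    intro b hb
    beta_reduce
    rw [if_pos (Finset.mem_range.1 hb)]
  · intro b _ hb
    beta_reduce
    rw [if_neg (fun h => hb (Finset.mem_range.2 h)), zero_mul]

end Net

/-! ### Zariski density -/

/-- the density statement of the frozen statement for depth `7` and activation degree `2` -/
def Fill (e : Fin 8 → ℕ) : Prop :=
  ∀ P : MvPolynomial (ℕ × (ℕ →₀ ℕ)) ℂ,
      (∀ W : Fin 7 → ℕ → ℕ → ℂ,
        MvPolynomial.eval (fun p : ℕ × (ℕ →₀ ℕ) => MvPolynomial.coeff p.2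
          (net e (fun k a b => MvPolynomial.C (W k a b))
            (fun b : ℕ => (MvPolynomial.X b : MvPolynomial ℕ ℂ)) p.1)) P = 0) →
      ∀ c : ℕ × (ℕ →₀ ℕ) → ℂ,
        (∀ p : ℕ × (ℕ →₀ ℕ), c p ≠ 0 →
          p.1 < e (Fin.last 7) ∧ (∑ b ∈ p.2.support, p.2 b) = 2 ^ (7 - 1) ∧
            ∀ b ∈ p.2.support, b < e 0) →
        MvPolynomial.eval c P = 0

lemma Fill.mono {e e' : Fin 8 → ℕ} (h : e ≤ e') (h0 : e 0 = e' 0) (h7 : e 7 = e' 7)
    (he : Fill e) : Fill e' := by
  intro P hP c hc
  refine he P (fun W => ?_) c ?_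
  · have := hP (fun k a b => if b < e k.castSucc then W k a b else 0)
    have e1 : (fun (k : Fin 7) (a b : ℕ) => (MvPolynomial.C
        (if b < e k.castSucc then W k a b else 0) : MvPolynomial ℕ ℂ)) =
        fun k a b => if b < e k.castSucc then MvPolynomial.C (W k a b) else 0 := by
      funext k a b
      split_ifs <;> simp
    rw [e1, net_mono h] at this
    exact this
  · intro p hp
    have := hc p hp
    rw [show e (Fin.last 7) = e' (Fin.last 7) from h7, h0]
    exact this

/-! ### Binary forms -/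

section BF

open MvPolynomial

variable {R : Type*} [CommRing R]

/-- `f` is a form of degree `n` in the variables `X 0, X 1` -/
def BF (n : ℕ) (f : MvPolynomial ℕ R) : Prop :=
  ∀ m, coeff m f ≠ 0 → m 0 + m 1 = n ∧ ∀ b, 2 ≤ b → m b = 0

lemma BF.zero (n : ℕ) : BF n (0 : MvPolynomial ℕ R) := by
  intro m hm; simp at hm

lemma BF.add {n : ℕ} {f g : MvPolynomial ℕ R} (hf : BF n f) (hg : BF n g) : BF n (f + g) := by
  intro m hm
  by_cases h : coeff m f = 0
  · apply hg
    intro h'
    rw [coeff_add, h, h', add_zero] at hm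
    exact hm rfl
  · exact hf m h

lemma BF.sum {n : ℕ} {ι : Type*} (s : Finset ι) (f : ι → MvPolynomial ℕ R)
    (h : ∀ i ∈ s, BF n (f i)) : BF n (∑ i ∈ s, f i) := by
  classical
  induction s using Finset.induction_on with
  | empty => simpa using BF.zero n
  | insert i s hi ih =>
    rw [Finset.sum_insert hi]
    exact (h i (Finset.mem_insert_self _ _)).add
      (ih fun j hj => h j (Finset.mem_insert_of_mem hj))

lemma BF.C_mul {n : ℕ} {f : MvPolynomial ℕ R} (hf : BF n f) (c : R) : BF n (C c * f) := by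
  intro m hm
  apply hf
  intro h
  rw [coeff_C_mul, h, mul_zero] at hm
  exact hm rfl

lemma BF.mul {n n' : ℕ} {f g : MvPolynomial ℕ R} (hf : BF n f) (hg : BF n' g) :
    BF (n + n') (f * g) := by
  classical
  intro m hm
  rw [coeff_mul] at hm
  obtain ⟨⟨u, v⟩, huv, hne⟩ := Finset.exists_ne_zero_of_sum_ne_zero hm
  rw [Finset.HasAntidiagonal.mem_antidiagonal] at huv
  have hu := hf u (left_ne_zero_of_mul hne)
  have hv := hg v (right_ne_zero_of_mul hne)
  simp only at huv
  rw [← huv]
  refine ⟨?_, fun b hb => ?_⟩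
  · simp only [Finsupp.add_apply]
    omega
  · simp only [Finsupp.add_apply]
    rw [hu.2 b hb, hv.2 b hb]

lemma BF.sq {n : ℕ} {f : MvPolynomial ℕ R} (hf : BF n f) : BF (2 * n) (f ^ 2) := by
  rw [pow_two, two_mul]
  exact hf.mul hf

lemma BF.X {b : ℕ} (hb : b < 2) : BF 1 (MvPolynomial.X b : MvPolynomial ℕ R) := by
  classical
  intro m hm
  rw [coeff_X] at hm
  have hm' : Finsupp.single b 1 = m := by
    by_contra h
    rw [if_neg h] at hm
    exact hm rfl
  subst hm'
  refine ⟨?_, fun c hc => ?_⟩
  · interval_cases b <;> simp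
  · rw [Finsupp.single_apply, if_neg (by omega)]

lemma BF.lay {n w : ℕ} {W : ℕ → ℕ → R} {h : ℕ → MvPolynomial ℕ R} (hh : ∀ b, BF n (h b))
    (a : ℕ) : BF (2 * n) (lay w (fun a b => C (W a b)) h a) := by
  unfold PNN.lay
  exact BF.sum _ _ fun b _ => (hh b).sq.C_mul _

lemma net_BF (e : Fin 8 → ℕ) (h0 : e 0 = 2) (W : Fin 7 → ℕ → ℕ → R) (a : ℕ) :
    BF 64 (net e (fun k a b => C (W k a b)) (fun b : ℕ => (MvPolynomial.X b : MvPolynomial ℕ R)) a)
      := by
  rw [net_eq]
  have h1 : ∀ a, BF 1 (lay0 (e 0) (fun a b => C (W 0 a b))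
      (fun b : ℕ => (MvPolynomial.X b : MvPolynomial ℕ R)) a) := by
    intro a
    unfold lay0
    refine BF.sum _ _ fun b hb => (BF.X ?_).C_mul _
    rw [h0] at hb
    exact Finset.mem_range.1 hb
  exact BF.lay (BF.lay (BF.lay (BF.lay (BF.lay (BF.lay h1))))) a

/-- inputs after dehomogenising -/
noncomputable def xP (R : Type*) [CommRing R] : ℕ → Polynomial R :=
  fun b => if b = 0 then Polynomial.X else 1

/-- the exponent `(j, n - j)` -/
noncomputable def mj (n j : ℕ) : ℕ →₀ ℕ := Finsupp.single 0 j + Finsupp.single 1 (n - j)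

lemma mj_apply_zero (n j : ℕ) : mj n j 0 = j := by simp [mj]
lemma mj_apply_one (n j : ℕ) : mj n j 1 = n - j := by simp [mj]
lemma mj_apply_two (n j b : ℕ) (hb : 2 ≤ b) : mj n j b = 0 := by
  simp only [mj, Finsupp.add_apply, Finsupp.single_apply]
  rw [if_neg (by omega), if_neg (by omega), add_zero]

lemma eq_mj {n : ℕ} {m : ℕ →₀ ℕ} (h : m 0 + m 1 = n) (h' : ∀ b, 2 ≤ b → m b = 0) :
    m = mj n (m 0) := by
  ext b
  rcases b with _ | _ | b
  · rw [mj_apply_zero]
  · rw [mj_apply_one]; simp only [zero_add]; omega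
  · rw [h' _ (by omega), mj_apply_two _ _ _ (by omega)]

lemma aeval_monomial_xP (m : ℕ →₀ ℕ) (c : R) :
    aeval (xP R) (monomial m c) = Polynomial.C c * Polynomial.X ^ (m 0) := by
  classical
  rw [aeval_monomial, Finsupp.prod]
  have : ∏ i ∈ m.support, xP R i ^ m i = Polynomial.X ^ (m 0) := by
    have h1 : ∀ i ∈ m.support, xP R i ^ m i =
        if i = 0 then Polynomial.X ^ (m 0) else 1 := by
      intro i _
      unfold xP
      split_ifs with h
      · rw [h]
      · simp
    rw [Finset.prod_congr rfl h1, Finset.prod_ite_eq' m.support 0]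
    split_ifs with h
    · rfl
    · rw [Finsupp.notMem_support_iff] at h
      rw [h, pow_zero]
  rw [this]
  rfl

lemma BF.coeff_dehom {n : ℕ} {f : MvPolynomial ℕ R} (hf : BF n f) {j : ℕ} (hj : j ≤ n) :
    coeff (mj n j) f = (aeval (xP R) f).coeff j := by
  classical
  conv_rhs => rw [f.as_sum, map_sum]
  rw [Polynomial.finsetSum_coeff]
  simp only [aeval_monomial_xP, Polynomial.coeff_C_mul, Polynomial.coeff_X_pow]
  rw [Finset.sum_eq_single (mj n j)]
  · rw [mj_apply_zero, if_pos rfl, mul_one]
  · intro m hm hne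
    rw [if_neg, mul_zero]
    rintro rfl
    rw [mem_support_iff] at hm
    obtain ⟨h1, h2⟩ := hf m hm
    exact hne (eq_mj h1 h2)
  · intro h
    rw [notMem_support_iff] at h
    rw [h, zero_mul]

/-- the dehomogenised output of the network -/
noncomputable def outP (e : Fin 8 → ℕ) (W : Fin 7 → ℕ → ℕ → R) (a : ℕ) : Polynomial R :=
  net e (fun k a b => Polynomial.C (W k a b)) (xP R) a

lemma aeval_net (e : Fin 8 → ℕ) (W : Fin 7 → ℕ → ℕ → R) (a : ℕ) :
    aeval (xP R) (net e (fun k a b => C (W k a b))
      (fun b : ℕ => (MvPolynomial.X b : MvPolynomial ℕ R)) a) = outP e W a := by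
  have := map_net (aeval (xP R) : MvPolynomial ℕ R →ₐ[R] Polynomial R).toRingHom e
    (fun k a b => C (W k a b)) (fun b : ℕ => (MvPolynomial.X b : MvPolynomial ℕ R)) a
  simp only [AlgHom.toRingHom_eq_coe, RingHom.coe_coe] at this
  rw [this]
  unfold outP
  congr 1
  · funext k a b
    rw [algHom_C]; rfl
  · funext b
    rw [aeval_X]

lemma coeff_net (e : Fin 8 → ℕ) (h0 : e 0 = 2) (W : Fin 7 → ℕ → ℕ → R) (a j : ℕ) (hj : j ≤ 64) :
    coeff (mj 64 j) (net e (fun k a b => C (W k a b))
      (fun b : ℕ => (MvPolynomial.X b : MvPolynomial ℕ R)) a) = (outP e W a).coeff j := by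
  rw [(net_BF e h0 W a).coeff_dehom hj, aeval_net]

end BF

/-! ### The characterisation -/

open MvPolynomial

/-- positions of the coefficients -/
noncomputable def pos (j : Fin 65) : ℕ × (ℕ →₀ ℕ) := (0, mj 64 j)

lemma pos_inj : Function.Injective pos := by
  intro i j h
  have := congrArg (fun p => p.2 0) h
  simp only [pos, mj_apply_zero] at this
  exact Fin.ext this

open Classical in
/-- extension by zero -/
noncomputable def ext (v : Fin 65 → ℂ) (p : ℕ × (ℕ →₀ ℕ)) : ℂ := ∑ j, if p = pos j then v j else 0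

lemma ext_pos (v : Fin 65 → ℂ) (j : Fin 65) : ext v (pos j) = v j := by
  classical
  unfold ext
  rw [Finset.sum_eq_single j]
  · simp
  · intro i _ hi
    rw [if_neg]
    exact fun h => hi (pos_inj h).symm
  · simp

lemma ext_ne (v : Fin 65 → ℂ) (p : ℕ × (ℕ →₀ ℕ)) (h : ∀ j, p ≠ pos j) : ext v p = 0 := by
  classical
  unfold ext
  exact Finset.sum_eq_zero fun j _ => if_neg (h j)

lemma ext_eq_zero_or (v : Fin 65 → ℂ) (p : ℕ × (ℕ →₀ ℕ)) (h : ext v p ≠ 0) : ∃ j, p = pos j := by
  by_contra hc
  push Not at hc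
  exact h (ext_ne v p hc)

lemma sum_mj (j : ℕ) (hj : j ≤ 64) : ∑ b ∈ (mj 64 j).support, (mj 64 j) b = 64 := by
  have hs : (mj 64 j).support ⊆ {0, 1} := by
    intro b hb
    rw [Finsupp.mem_support_iff] at hb
    simp only [Finset.mem_insert, Finset.mem_singleton]
    by_contra hc
    exact hb (mj_apply_two _ _ _ (by omega))
  rw [Finset.sum_subset hs]
  · rw [Finset.sum_pair (by norm_num), mj_apply_zero, mj_apply_one]
    omega
  · intro b _ hb
    rwa [Finsupp.notMem_support_iff] at hb

theorem fill_iff (e : Fin 8 → ℕ) (h0 : e 0 = 2) (h7 : e 7 = 1) :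
    Fill e ↔ ∀ P : MvPolynomial (Fin 65) ℂ,
      (∀ W : Fin 7 → ℕ → ℕ → ℂ, eval (fun j : Fin 65 => (outP e W 0).coeff j) P = 0) → P = 0 := by
  classical
  constructor
  · intro hF P hP
    apply MvPolynomial.funext
    intro v
    rw [map_zero]
    have h1 := hF (rename pos P) (fun W => by
      rw [eval_rename]
      have := hP W
      convert this using 3
      funext j
      exact coeff_net e h0 W 0 j (by omega)) (ext v) (by
      intro p hp
      obtain ⟨j, rfl⟩ := ext_eq_zero_or v p hp
      refine ⟨?_, ?_, ?_⟩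
      · have : e (Fin.last 7) = 1 := h7
        rw [this]; simp [pos]
      · exact sum_mj j (by omega)
      · intro b hb
        rw [h0]
        by_contra hc
        rw [Finsupp.mem_support_iff] at hb
        exact hb (mj_apply_two _ _ _ (by omega)))
    rw [eval_rename] at h1
    have e1 : ext v ∘ pos = v := by
      funext j
      exact ext_pos v j
    rw [e1] at h1
    exact h1
  · intro hF Q hQ c hc
    let P : MvPolynomial (Fin 65) ℂ :=
      bind₁ (fun p : ℕ × (ℕ →₀ ℕ) => ∑ j, if p = pos j then X j else 0) Q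
    have hev : ∀ v : Fin 65 → ℂ, eval v P = eval (ext v) Q := by
      intro v
      have e1 : eval v P = eval₂Hom (RingHom.id ℂ) v P := rfl
      rw [e1, eval₂Hom_bind₁]
      have e2 : eval (ext v) Q = eval₂Hom (RingHom.id ℂ) (ext v) Q := rfl
      rw [e2]
      congr 2
      funext p
      simp only [map_sum, ext]
      refine Finset.sum_congr rfl fun j _ => ?_
      split_ifs <;> simp
    have hP : P = 0 := by
      apply hF
      intro W
      rw [hev]
      have hW := hQ (fun k a b => if k = 6 ∧ a ≠ 0 then 0 else W k a b)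
      convert hW using 3
      funext p
      obtain ⟨a, m⟩ := p
      -- output `0` does not change
      have hnet0 : ∀ {B : Type} [CommRing B] (V : Fin 7 → ℕ → ℕ → B) (x : ℕ → B),
          net e (fun k a b => if k = 6 ∧ a ≠ 0 then 0 else V k a b) x 0 = net e V x 0 := by
        intro B _ V x
        rw [net_eq, net_eq]
        simp [lay, lay0]
      have hneta : ∀ {B : Type} [CommRing B] (V : Fin 7 → ℕ → ℕ → B) (x : ℕ → B) (a : ℕ),
          a ≠ 0 → net e (fun k a b => if k = 6 ∧ a ≠ 0 then 0 else V k a b) x a = 0 := by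
        intro B _ V x a ha
        rw [net_eq]
        simp [lay, ha]
      have hC : (fun (k : Fin 7) (a b : ℕ) => (C (if k = 6 ∧ a ≠ 0 then 0 else W k a b) :
          MvPolynomial ℕ ℂ)) = fun k a b => if k = 6 ∧ a ≠ 0 then 0 else C (W k a b) := by
        funext k a b
        split_ifs <;> simp
      simp only
      rw [hC]
      by_cases ha : a = 0
      · subst ha
        rw [hnet0]
        by_cases hm : ∃ j : Fin 65, m = mj 64 j
        · obtain ⟨j, rfl⟩ := hm
          rw [show ((0, mj 64 j) : ℕ × (ℕ →₀ ℕ)) = pos j from rfl, ext_pos,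
            coeff_net e h0 W 0 j (by omega)]
        · have h1 : coeff m (net e (fun k a b => C (W k a b))
              (fun b : ℕ => (MvPolynomial.X b : MvPolynomial ℕ ℂ)) 0) = 0 := by
            by_contra hne
            obtain ⟨h2, h3⟩ := net_BF e h0 W 0 m hne
            exact hm ⟨⟨m 0, by omega⟩, eq_mj h2 h3⟩
          rw [h1]
          apply ext_ne
          intro j hj
          exact hm ⟨j, congrArg Prod.snd hj⟩
      · rw [hneta _ _ _ ha, coeff_zero]
        apply ext_ne
        intro j hj
        exact ha (congrArg Prod.fst hj)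
    have hcext : c = ext (fun j => c (pos j)) := by
      funext p
      by_cases hp : c p = 0
      · by_cases hj : ∃ j, p = pos j
        · obtain ⟨j, rfl⟩ := hj
          rw [ext_pos]
        · push Not at hj
          rw [ext_ne _ _ hj, hp]
      · obtain ⟨h1, h2, h3⟩ := hc p hp
        have h1' : p.1 = 0 := by
          have : e (Fin.last 7) = 1 := h7
          rw [this] at h1; omega
        have h3' : ∀ b, 2 ≤ b → p.2 b = 0 := by
          intro b hb
          by_contra hne
          have := h3 b (Finsupp.mem_support_iff.2 hne)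
          rw [h0] at this
          omega
        have hs : p.2.support ⊆ {0, 1} := by
          intro b hb
          have := h3 b hb
          rw [h0] at this
          simp only [Finset.mem_insert, Finset.mem_singleton]
          omega
        have h2' : p.2 0 + p.2 1 = 64 := by
          rw [Finset.sum_subset hs, Finset.sum_pair (by norm_num)] at h2
          · simpa using h2
          · intro b _ hb
            rwa [Finsupp.notMem_support_iff] at hb
        have hpj : p = pos ⟨p.2 0, by omega⟩ := by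
          apply Prod.ext
          · exact h1'
          · exact eq_mj h2' h3'
        rw [hpj, ext_pos]
    rw [hcext, ← hev, hP, map_zero]

end Pool.Agent.R846.PNN
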