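import Pool.Agent.R846.PNN.Dominance

/-!
Three width vectors that are not filling (dimension bounds).
-/

set_option autoImplicit false

open Finset

namespace Pool.Agent.R846.PNN

/-- the ring of weights over `ℂ` -/
abbrev AC := MvPolynomial (ℕ × ℕ × ℕ) ℂ

/-- its fraction field -/
abbrev KK := FractionRing AC

/-- the generic weights -/
noncomputable def Wg (k a b : ℕ) : KK := algebraMap AC KK (MvPolynomial.X (k, a, b))

lemma Wg_ne (k a b : ℕ) : Wg k a b ≠ 0 := by
  unfold Wg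
  rw [Ne, FaithfulSMul.algebraMap_eq_zero_iff]
  exact MvPolynomial.X_ne_zero _

/-- the coefficients of the output of the generic network -/
noncomputable def FE (e : Fin 8 → ℕ) (j : ℕ) : AC :=
  (outP e (fun k a b => (MvPolynomial.X ((k : ℕ), a, b) : AC)) 0).coeff j

lemma algebraMap_FE (e : Fin 8 → ℕ) (j : ℕ) :
    algebraMap AC KK (FE e j) = (outP e (fun k a b => Wg (k : ℕ) a b) 0).coeff j := by
  unfold FE outP
  rw [← Polynomial.coeff_map]
  have := map_net (Polynomial.mapRingHom (algebraMap AC KK))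
    e (fun k a b => Polynomial.C (MvPolynomial.X ((k : ℕ), a, b) : AC)) (xP AC) 0
  rw [Polynomial.coe_mapRingHom] at this
  rw [this]
  congr 2
  · funext k a b
    simp [Wg]
  · funext b
    unfold xP
    split_ifs <;> simp

lemma eval_FE (e : Fin 8 → ℕ) (w : ℕ × ℕ × ℕ → ℂ) (j : ℕ) :
    MvPolynomial.eval w (FE e j) = (outP e (fun k a b => w ((k : ℕ), a, b)) 0).coeff j := by
  unfold FE outP
  rw [← Polynomial.coeff_map]
  have := map_net (Polynomial.mapRingHom (MvPolynomial.eval w))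
    e (fun k a b => Polynomial.C (MvPolynomial.X ((k : ℕ), a, b) : AC)) (xP _) 0
  rw [Polynomial.coe_mapRingHom] at this
  rw [this]
  congr 2
  · funext k a b
    simp
  · funext b
    unfold xP
    split_ifs <;> simp

/-- If the coefficients of the generic output are polynomials in fewer than `65` elements, the
network is not filling. -/
theorem not_fill (e : Fin 8 → ℕ) (h0 : e 0 = 2) (h7 : e 7 = 1) {ι : Type} [Fintype ι]
    (hcard : Fintype.card ι < 65) (θ : ι → KK)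
    (h : ∀ j, (outP e (fun k a b => Wg (k : ℕ) a b) 0).coeff j ∈
      Algebra.adjoin ℂ (Set.range θ)) : ¬ Fill e := by
  intro hF
  rw [fill_iff e h0 h7] at hF
  have h1 : ∀ j : Fin 65, ∃ Q : MvPolynomial ι ℂ, MvPolynomial.aeval θ Q =
      (outP e (fun k a b => Wg (k : ℕ) a b) 0).coeff j := by
    intro j
    have := h j
    rw [Algebra.adjoin_range_eq_range_aeval] at this
    exact this
  choose Q hQ using h1
  have hdep : ¬ AlgebraicIndependent ℂ Q := by
    intro hind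
    have h2 := hind.lift_cardinalMk_le_trdeg
    rw [MvPolynomial.trdeg_of_isDomain] at h2
    simp only [Cardinal.mk_fintype, Fintype.card_fin, Cardinal.lift_natCast] at h2
    have h3 : 65 ≤ Fintype.card ι := by exact_mod_cast h2
    omega
  rw [algebraicIndependent_iff] at hdep
  push Not at hdep
  obtain ⟨P, hP, hP0⟩ := hdep
  apply hP0
  apply hF
  intro W
  -- the relation holds in the field, hence in the ring of weights
  have h2 : MvPolynomial.aeval (fun j : Fin 65 =>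
      (outP e (fun k a b => Wg (k : ℕ) a b) 0).coeff j) P = 0 := by
    have : MvPolynomial.aeval (fun j : Fin 65 =>
        (outP e (fun k a b => Wg (k : ℕ) a b) 0).coeff j) P =
        MvPolynomial.aeval θ (MvPolynomial.aeval Q P) := by
      rw [MvPolynomial.comp_aeval_apply]
      congr 2
      funext j
      exact (hQ j).symm
    rw [this, hP, map_zero]
  have h3 : MvPolynomial.aeval (fun j : Fin 65 => FE e j) P = 0 := by
    apply FaithfulSMul.algebraMap_injective AC KK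
    rw [map_zero, ← h2]
    have := MvPolynomial.comp_aeval_apply (R := ℂ) (fun j : Fin 65 => FE e j)
      (IsScalarTower.toAlgHom ℂ AC KK) P
    simp only [IsScalarTower.coe_toAlgHom'] at this
    rw [this]
    congr 2
    funext j
    exact algebraMap_FE e j
  let w : ℕ × ℕ × ℕ → ℂ := fun i => if hi : i.1 < 7 then W ⟨i.1, hi⟩ i.2.1 i.2.2 else 0
  have hw : (fun (k : Fin 7) (a b : ℕ) => w ((k : ℕ), a, b)) = W := by
    funext k a b
    simp [w, k.2]
  have h4 := congrArg (MvPolynomial.eval w) h3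
  rw [map_zero] at h4
  have h6 : MvPolynomial.eval w (MvPolynomial.aeval (fun j : Fin 65 => FE e j) P) =
      MvPolynomial.eval (fun j : Fin 65 => MvPolynomial.eval w (FE e j)) P := by
    have : (MvPolynomial.eval w).comp ((MvPolynomial.aeval (fun j : Fin 65 => FE e j)) :
        MvPolynomial (Fin 65) ℂ →ₐ[ℂ] _).toRingHom =
        MvPolynomial.eval (fun j : Fin 65 => MvPolynomial.eval w (FE e j)) := by
      apply MvPolynomial.ringHom_ext
      · intro r; simp
      · intro j; simp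
    exact congrArg (fun f => f P) this
  rw [h6] at h4
  simp only [eval_FE, hw] at h4
  exact h4

/-! ### Polynomials with coefficients in a subalgebra -/

/-- polynomials with coefficients in `S` -/
noncomputable def PSub (S : Subalgebra ℂ KK) : Subsemiring (Polynomial KK) :=
  Polynomial.lifts (algebraMap S KK)

lemma mem_PSub {S : Subalgebra ℂ KK} {g : Polynomial KK} :
    g ∈ PSub S ↔ ∀ n, g.coeff n ∈ S := by
  unfold PSub
  rw [Polynomial.lifts_iff_coeff_lifts]
  refine forall_congr' fun n => ?_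
  constructor
  · rintro ⟨y, hy⟩
    rw [← hy]
    exact y.2
  · intro h
    exact ⟨⟨_, h⟩, rfl⟩

lemma C_mem_PSub {S : Subalgebra ℂ KK} {c : KK} (hc : c ∈ S) : Polynomial.C c ∈ PSub S := by
  rw [mem_PSub]
  intro n
  rw [Polynomial.coeff_C]
  split_ifs
  · exact hc
  · exact S.zero_mem

/-- exponents of degree `D` -/
abbrev TT (n D : ℕ) : Type := {s : Fin n → Fin (D + 1) // ∑ i, (s i : ℕ) = D}

/-- the exponent as a finitely supported function -/
noncomputable def ft {n D : ℕ} (s : TT n D) : Fin n →₀ ℕ :=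
  Finsupp.equivFunOnFinite.symm fun i => (s.1 i : ℕ)

lemma form_mem {n D : ℕ} (H : MvPolynomial (Fin n) KK) (hH : H.IsHomogeneous D)
    (S : Subalgebra ℂ KK) (hc : ∀ s : TT n D, MvPolynomial.coeff (ft s) H ∈ S)
    (y : Fin n → Polynomial KK) (hy : ∀ i, y i ∈ PSub S) :
    MvPolynomial.aeval y H ∈ PSub S := by
  classical
  rw [H.as_sum, map_sum]
  apply Subsemiring.sum_mem
  intro m hm
  rw [MvPolynomial.aeval_monomial]
  apply Subsemiring.mul_mem
  · apply C_mem_PSub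
    have hdeg : ∑ i, m i = D := by
      have h1 := hH (MvPolynomial.mem_support_iff.1 hm)
      rw [Finsupp.weight_apply, Finsupp.sum_fintype _ _ (by simp)] at h1
      simpa using h1
    have hle : ∀ i, m i < D + 1 := by
      intro i
      have h2 : m i ≤ ∑ i, m i := Finset.single_le_sum (f := fun i => m i)
        (fun _ _ => Nat.zero_le _) (Finset.mem_univ i)
      omega
    have := hc ⟨fun i => ⟨m i, hle i⟩, hdeg⟩
    convert this using 2
    ext i
    simp [ft]
  · rw [Finsupp.prod]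
    apply Subsemiring.prod_mem
    intro i _
    exact Subsemiring.pow_mem _ (hy i) _

/-- If the coefficients up to degree `d` are in `S`, the polynomial has coefficients in `S`. -/
lemma mem_PSub_of_natDegree {S : Subalgebra ℂ KK} {g : Polynomial KK} {d : ℕ}
    (hd : g.natDegree ≤ d) (h : ∀ n ≤ d, g.coeff n ∈ S) : g ∈ PSub S := by
  rw [mem_PSub]
  intro n
  by_cases hn : n ≤ d
  · exact h n hn
  · rw [Polynomial.coeff_eq_zero_of_natDegree_lt (by omega)]
    exact S.zero_mem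

/-- the quartic form of the last three layers -/
noncomputable def QH (n n5 n6 : ℕ) (a : ℕ → ℕ → KK) : MvPolynomial (Fin n) KK :=
  ∑ k ∈ range n6, MvPolynomial.C (Wg 6 0 k) * (∑ l ∈ range n5, MvPolynomial.C (Wg 5 k l) *
    (∑ i : Fin n, MvPolynomial.C (a l i) * MvPolynomial.X i) ^ 2) ^ 2

lemma QH_hom (n n5 n6 : ℕ) (a : ℕ → ℕ → KK) : (QH n n5 n6 a).IsHomogeneous 4 := by
  unfold QH
  apply MvPolynomial.IsHomogeneous.sum
  intro k _
  apply MvPolynomial.IsHomogeneous.C_mul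
  have h1 : (∑ l ∈ range n5, MvPolynomial.C (Wg 5 k l) *
    (∑ i : Fin n, MvPolynomial.C (a l i) * MvPolynomial.X i) ^ 2).IsHomogeneous 2 := by
    apply MvPolynomial.IsHomogeneous.sum
    intro l _
    apply MvPolynomial.IsHomogeneous.C_mul
    have h2 : (∑ i : Fin n, MvPolynomial.C (a l i) *
        (MvPolynomial.X i : MvPolynomial (Fin n) KK)).IsHomogeneous 1 := by
      apply MvPolynomial.IsHomogeneous.sum
      intro i _
      exact (MvPolynomial.isHomogeneous_X _ _).C_mul _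
    simpa using h2.pow 2
  simpa using h1.pow 2

lemma aeval_QH (n n5 n6 : ℕ) (a : ℕ → ℕ → KK) (y : ℕ → Polynomial KK) :
    MvPolynomial.aeval (fun i : Fin n => y i) (QH n n5 n6 a) =
      ∑ k ∈ range n6, Polynomial.C (Wg 6 0 k) * (∑ l ∈ range n5, Polynomial.C (Wg 5 k l) *
        (∑ i ∈ range n, Polynomial.C (a l i) * y i) ^ 2) ^ 2 := by
  unfold QH
  simp only [map_sum, map_mul, map_pow, MvPolynomial.aeval_X, MvPolynomial.algHom_C,
    Polynomial.algebraMap_eq]
  refine Finset.sum_congr rfl fun k _ => ?_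
  congr 2
  refine Finset.sum_congr rfl fun l _ => ?_
  congr 2
  exact Fin.sum_univ_eq_sum_range (fun i => Polynomial.C (a l i) * y i) n

/-- the quadratic form of the last two layers -/
noncomputable def QQ (n n6 : ℕ) (a : ℕ → ℕ → KK) : MvPolynomial (Fin n) KK :=
  ∑ k ∈ range n6, MvPolynomial.C (Wg 6 0 k) *
    (∑ l : Fin n, MvPolynomial.C (a k l) * MvPolynomial.X l) ^ 2

lemma QQ_hom (n n6 : ℕ) (a : ℕ → ℕ → KK) : (QQ n n6 a).IsHomogeneous 2 := by
  unfold QQ
  apply MvPolynomial.IsHomogeneous.sum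
  intro l _
  apply MvPolynomial.IsHomogeneous.C_mul
  have h2 : (∑ i : Fin n, MvPolynomial.C (a l i) *
      (MvPolynomial.X i : MvPolynomial (Fin n) KK)).IsHomogeneous 1 := by
    apply MvPolynomial.IsHomogeneous.sum
    intro i _
    exact (MvPolynomial.isHomogeneous_X _ _).C_mul _
  simpa using h2.pow 2

lemma aeval_QQ (n n6 : ℕ) (a : ℕ → ℕ → KK) (y : ℕ → Polynomial KK) :
    MvPolynomial.aeval (fun i : Fin n => y i) (QQ n n6 a) =
      ∑ k ∈ range n6, Polynomial.C (Wg 6 0 k) *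
        (∑ i ∈ range n, Polynomial.C (a k i) * y i) ^ 2 := by
  unfold QQ
  simp only [map_sum, map_mul, map_pow, MvPolynomial.aeval_X, MvPolynomial.algHom_C,
    Polynomial.algebraMap_eq]
  refine Finset.sum_congr rfl fun k _ => ?_
  congr 2
  exact Fin.sum_univ_eq_sum_range (fun i => Polynomial.C (a k i) * y i) n

/-! ### Levels over the field -/

/-- polynomial weights -/
noncomputable def CW (k : ℕ) (a b : ℕ) : Polynomial KK := Polynomial.C (Wg k a b)

/-- third level (quartics) -/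
noncomputable def q3 (a : ℕ) : Polynomial KK :=
  lay 4 (CW 2) (lay 3 (CW 1) (lay0 2 (CW 0) (xP KK))) a

/-- fourth level (octics) with `n` units below -/
noncomputable def q4 (n : ℕ) (a : ℕ) : Polynomial KK := lay n (CW 3) q3 a

lemma natDegree_q3 (a : ℕ) : (q3 a).natDegree ≤ 4 :=
  natDegree_lay _ _ _ (natDegree_lay _ _ _ (natDegree_lay0 _ _ _ natDegree_xP)) a

lemma natDegree_q4 (n a : ℕ) : (q4 n a).natDegree ≤ 8 :=
  natDegree_lay _ _ _ natDegree_q3 a

/-- third level over any ring -/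
noncomputable def g3 (R : Type) [CommRing R] (W : ℕ → ℕ → ℕ → R) (a : ℕ) : Polynomial R :=
  lay 4 (fun a b => Polynomial.C (W 2 a b)) (lay 3 (fun a b => Polynomial.C (W 1 a b))
    (lay0 2 (fun a b => Polynomial.C (W 0 a b)) (xP R))) a

/-- fourth level over any ring -/
noncomputable def g4 (R : Type) [CommRing R] (n : ℕ) (W : ℕ → ℕ → ℕ → R) (a : ℕ) :
    Polynomial R :=
  lay n (fun a b => Polynomial.C (W 3 a b)) (g3 R W) a

lemma map_g3 {R R' : Type} [CommRing R] [CommRing R'] (f : R →+* R') (W : ℕ → ℕ → ℕ → R)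
    (a : ℕ) : (g3 R W a).map f = g3 R' (fun k a b => f (W k a b)) a := by
  have : ∀ p : Polynomial R, p.map f = Polynomial.mapRingHom f p := fun _ => rfl
  have hx : (fun b => (xP R b).map f) = xP R' := by
    funext b
    unfold xP
    split_ifs <;> simp
  unfold g3
  rw [this, map_lay]
  simp only [map_lay, map_lay0, Polynomial.coe_mapRingHom, Polynomial.map_C, hx]

lemma map_g4 {R R' : Type} [CommRing R] [CommRing R'] (f : R →+* R') (n : ℕ)
    (W : ℕ → ℕ → ℕ → R) (a : ℕ) : (g4 R n W a).map f = g4 R' n (fun k a b => f (W k a b)) a := by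
  have : ∀ p : Polynomial R, p.map f = Polynomial.mapRingHom f p := fun _ => rfl
  unfold g4
  rw [this, map_lay]
  simp only [Polynomial.coe_mapRingHom, Polynomial.map_C, map_g3]

lemma g3_one (a : ℕ) : g3 ℂ (fun _ _ _ => 1) a = Polynomial.C 36 * (Polynomial.X + 1) ^ 4 := by
  have h1 : ∀ a, lay0 2 (fun _ _ => Polynomial.C (1 : ℂ)) (xP ℂ) a = Polynomial.X + 1 := by
    intro a
    simp [lay0, xP, Finset.sum_range_succ]
  have h2 : ∀ a, lay 3 (fun _ _ => Polynomial.C (1 : ℂ))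
      (lay0 2 (fun _ _ => Polynomial.C (1 : ℂ)) (xP ℂ)) a =
      Polynomial.C 3 * (Polynomial.X + 1) ^ 2 := by
    intro a
    simp only [lay, h1]
    simp only [map_one, one_mul, Finset.sum_const, Finset.card_range, nsmul_eq_mul]
    rw [show (Polynomial.C (3 : ℂ)) = 3 from rfl]
    push_cast
    ring
  have h3 : g3 ℂ (fun _ _ _ => 1) a = ∑ b ∈ range 4, Polynomial.C (1 : ℂ) *
      (lay 3 (fun _ _ => Polynomial.C (1 : ℂ))
      (lay0 2 (fun _ _ => Polynomial.C (1 : ℂ)) (xP ℂ)) b) ^ 2 := rfl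
  rw [h3]
  simp only [h2]
  simp only [map_one, one_mul, Finset.sum_const, Finset.card_range, nsmul_eq_mul]
  rw [show (Polynomial.C (36 : ℂ)) = 36 from rfl, show (Polynomial.C (3 : ℂ)) = 3 from rfl]
  push_cast
  ring

lemma g4_one (n a : ℕ) : g4 ℂ n (fun _ _ _ => 1) a =
    Polynomial.C ((n : ℂ) * 1296) * (Polynomial.X + 1) ^ 8 := by
  unfold g4
  simp only [lay, g3_one, map_one, one_mul, Finset.sum_const, Finset.card_range, nsmul_eq_mul]
  rw [show (Polynomial.C (36 : ℂ)) = 36 from rfl, map_mul, map_natCast,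
    show (Polynomial.C (1296 : ℂ)) = 1296 from rfl]
  ring

lemma coeff_pow_X_add_one (n : ℕ) : ((Polynomial.X + 1 : Polynomial ℂ) ^ n).coeff n = 1 := by
  rw [Polynomial.coeff_X_add_one_pow]
  simp

/-- the generic weights as polynomials -/
noncomputable def WA (k a b : ℕ) : AC := MvPolynomial.X (k, a, b)

lemma coeff_q3_ne (a : ℕ) : (q3 a).coeff 4 ≠ 0 := by
  have h1 : q3 a = (g3 AC WA a).map (algebraMap AC KK) := by
    rw [map_g3]; rfl
  rw [h1, Polynomial.coeff_map]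
  intro h
  rw [FaithfulSMul.algebraMap_eq_zero_iff] at h
  have h2 := congrArg (MvPolynomial.eval (fun _ => (1 : ℂ))) h
  rw [← Polynomial.coeff_map, map_g3, map_zero] at h2
  have h3 : (fun (k a b : ℕ) => MvPolynomial.eval (fun _ => (1 : ℂ)) (WA k a b)) =
      fun _ _ _ => 1 := by
    funext k a b
    simp [WA]
  rw [h3, g3_one, Polynomial.coeff_C_mul, coeff_pow_X_add_one] at h2
  norm_num at h2

lemma coeff_q4_ne (n : ℕ) (hn : n ≠ 0) (a : ℕ) : (q4 n a).coeff 8 ≠ 0 := by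
  have h1 : q4 n a = (g4 AC n WA a).map (algebraMap AC KK) := by
    rw [map_g4]; rfl
  rw [h1, Polynomial.coeff_map]
  intro h
  rw [FaithfulSMul.algebraMap_eq_zero_iff] at h
  have h2 := congrArg (MvPolynomial.eval (fun _ => (1 : ℂ))) h
  rw [← Polynomial.coeff_map, map_g4, map_zero] at h2
  have h3 : (fun (k a b : ℕ) => MvPolynomial.eval (fun _ => (1 : ℂ)) (WA k a b)) =
      fun _ _ _ => 1 := by
    funext k a b
    simp [WA]
  rw [h3, g4_one, Polynomial.coeff_C_mul, coeff_pow_X_add_one] at h2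
  norm_num at h2
  exact hn h2

/-! ### The three width vectors -/

lemma card_TT44 : Fintype.card (TT 4 4) = 35 := by decide +kernel
lemma card_TT34 : Fintype.card (TT 3 4) = 15 := by decide +kernel
lemma card_TT52 : Fintype.card (TT 5 2) = 15 := by decide +kernel

/-- widths with only three units in the fourth hidden layer -/
def E1 : Fin 8 → ℕ := ![2, 3, 4, 5, 3, 6, 4, 1]

/-- widths with only four units in the third hidden layer -/
def E2 : Fin 8 → ℕ := ![2, 3, 4, 4, 4, 6, 4, 1]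

/-- widths with only five units in the fifth hidden layer -/
def E3 : Fin 8 → ℕ := ![2, 3, 4, 5, 4, 5, 4, 1]

lemma out_E1 : outP E1 (fun k a b => Wg (k : ℕ) a b) 0 =
    ∑ k ∈ range 4, Polynomial.C (Wg 6 0 k) * (∑ l ∈ range 6, Polynomial.C (Wg 5 k l) *
        (∑ i ∈ range 3, Polynomial.C (Wg 4 l i) * q4 5 i ^ 2) ^ 2) ^ 2 := by
  unfold outP
  rw [net_eq]
  rfl

lemma out_E2 : outP E2 (fun k a b => Wg (k : ℕ) a b) 0 =
    ∑ k ∈ range 4, Polynomial.C (Wg 6 0 k) * (∑ l ∈ range 6, Polynomial.C (Wg 5 k l) *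
        (∑ i ∈ range 4, Polynomial.C (Wg 4 l i) * q4 4 i ^ 2) ^ 2) ^ 2 := by
  unfold outP
  rw [net_eq]
  rfl

lemma out_E3 : outP E3 (fun k a b => Wg (k : ℕ) a b) 0 =
    ∑ k ∈ range 4, Polynomial.C (Wg 6 0 k) * (∑ l ∈ range 5, Polynomial.C (Wg 5 k l) *
        (∑ i ∈ range 4, Polynomial.C (Wg 4 l i) * q4 5 i ^ 2) ^ 2) ^ 2 := by
  unfold outP
  rw [net_eq]
  rfl

theorem not_fill_E1 : ¬ Fill E1 := by
  let H := QH 3 6 4 (fun l i => Wg 4 l i)
  let θ : (Fin 3 × Fin 9) ⊕ TT 3 4 → KK := fun x => match x with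
    | Sum.inl (i, j) => (q4 5 i).coeff j
    | Sum.inr s => MvPolynomial.coeff (ft s) H
  apply not_fill E1 rfl rfl (ι := (Fin 3 × Fin 9) ⊕ TT 3 4) (by
    rw [Fintype.card_sum, Fintype.card_prod, Fintype.card_fin, Fintype.card_fin, card_TT34]
    norm_num) θ
  have hθ : ∀ x, θ x ∈ Algebra.adjoin ℂ (Set.range θ) := fun x =>
    Algebra.subset_adjoin ⟨x, rfl⟩
  rw [← mem_PSub]
  have hout := aeval_QH 3 6 4 (fun l i => Wg 4 l i) (fun i => q4 5 i ^ 2)
  rw [out_E1, ← hout]
  apply form_mem _ (QH_hom _ _ _ _)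
  · intro s
    exact hθ (Sum.inr s)
  · intro i
    apply Subsemiring.pow_mem
    apply mem_PSub_of_natDegree (natDegree_q4 5 i)
    intro n hn
    exact hθ (Sum.inl (i, ⟨n, by omega⟩))

lemma normal {g : Polynomial KK} {d : ℕ} (hd : g.natDegree ≤ d) (hg : g.coeff d ≠ 0) :
    ∃ (α : KK) (g' : Polynomial KK), α ≠ 0 ∧ g = Polynomial.C α * g' ∧ g'.natDegree ≤ d ∧
      g'.coeff d = 1 := by
  refine ⟨g.coeff d, Polynomial.C (g.coeff d)⁻¹ * g, hg, ?_, ?_, ?_⟩
  · rw [← mul_assoc, ← Polynomial.C_mul, mul_inv_cancel₀ hg, Polynomial.C_1, one_mul]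
  · exact (Polynomial.natDegree_C_mul_le _ _).trans hd
  · rw [Polynomial.coeff_C_mul]
    exact inv_mul_cancel₀ hg

/-- normalising a sum of squares -/
lemma normal_sum (c : ℕ → KK) (hc : c 0 ≠ 0) (g g' : ℕ → Polynomial KK) (α : ℕ → KK)
    (hα : ∀ j, α j ≠ 0) (hg : ∀ j, g j = Polynomial.C (α j) * g' j) (n : ℕ) :
    ∃ (β : KK) (w' : ℕ → KK), w' 0 = 1 ∧
      ∑ j ∈ range n, Polynomial.C (c j) * g j ^ 2 =
        Polynomial.C β * ∑ j ∈ range n, Polynomial.C (w' j) * g' j ^ 2 := by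
  have hβ : c 0 * α 0 ^ 2 ≠ 0 := mul_ne_zero hc (pow_ne_zero 2 (hα 0))
  refine ⟨c 0 * α 0 ^ 2, fun j => c j * α j ^ 2 / (c 0 * α 0 ^ 2), div_self hβ, ?_⟩
  rw [Finset.mul_sum]
  refine Finset.sum_congr rfl fun j _ => ?_
  have h2 : (c 0 * α 0 ^ 2) * (c j * α j ^ 2 / (c 0 * α 0 ^ 2)) = c j * α j ^ 2 :=
    mul_div_cancel₀ _ hβ
  rw [← mul_assoc, ← Polynomial.C_mul, h2, hg j, Polynomial.C_mul, Polynomial.C_pow]
  ring

lemma sum_mem_PSub {S : Subalgebra ℂ KK} {n d : ℕ} (w' : ℕ → KK) (hw0 : w' 0 = 1)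
    (hw : ∀ j, j + 1 < n → w' (j + 1) ∈ S) (g' : ℕ → Polynomial KK)
    (hd : ∀ j, (g' j).natDegree ≤ d) (h1 : ∀ j, (g' j).coeff d = 1)
    (hc : ∀ j < n, ∀ m < d, (g' j).coeff m ∈ S) :
    ∑ j ∈ range n, Polynomial.C (w' j) * g' j ^ 2 ∈ PSub S := by
  apply Subsemiring.sum_mem
  intro j hj
  rw [Finset.mem_range] at hj
  apply Subsemiring.mul_mem
  · apply C_mem_PSub
    rcases j with _ | j
    · rw [hw0]; exact Subalgebra.one_mem _
    · exact hw j hj
  · apply Subsemiring.pow_mem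
    apply mem_PSub_of_natDegree (hd j)
    intro m hm
    rcases Nat.lt_or_ge m d with h | h
    · exact hc j hj m h
    · obtain rfl : m = d := by omega
      rw [h1 j]
      exact Subalgebra.one_mem _

lemma q4_eq (n i : ℕ) : q4 n i = ∑ j ∈ range n, Polynomial.C (Wg 3 i j) * q3 j ^ 2 := rfl

theorem not_fill_E2 : ¬ Fill E2 := by
  choose α q' hα hq hqd hq1 using fun j => normal (natDegree_q3 j) (coeff_q3_ne j)
  choose β w' hw0 hu using fun i => normal_sum (Wg 3 i) (Wg_ne 3 i 0) q3 q' α hα hq 4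
  obtain ⟨u', hu'⟩ : ∃ u' : ℕ → Polynomial KK,
      ∀ i, u' i = ∑ j ∈ range 4, Polynomial.C (w' i j) * q' j ^ 2 := ⟨_, fun _ => rfl⟩
  have hq4 : ∀ i, q4 4 i = Polynomial.C (β i) * u' i := by
    intro i
    rw [q4_eq, hu i, hu' i]
  obtain ⟨a, ha⟩ : ∃ a : ℕ → ℕ → KK, ∀ l i, a l i = Wg 4 l i * β i ^ 2 := ⟨_, fun _ _ => rfl⟩
  obtain ⟨H, hH⟩ : ∃ H, H = QH 4 6 4 a := ⟨_, rfl⟩
  have hout : outP E2 (fun k a b => Wg (k : ℕ) a b) 0 =
      MvPolynomial.aeval (fun i : Fin 4 => (fun i : ℕ => u' i ^ 2) i) H := by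
    have h1 : ∀ l, ∑ i ∈ range 4, Polynomial.C (Wg 4 l i) * q4 4 i ^ 2 =
        ∑ i ∈ range 4, Polynomial.C (a l i) * u' i ^ 2 := by
      intro l
      refine Finset.sum_congr rfl fun i _ => ?_
      rw [ha, hq4 i, Polynomial.C_mul, Polynomial.C_pow]
      ring
    rw [hH, aeval_QH 4 6 4 a (fun i => u' i ^ 2), out_E2]
    simp only [h1]
  obtain ⟨θ, hθ1, hθ2, hθ3⟩ : ∃ θ : (Fin 4 × Fin 4) ⊕ (Fin 4 × Fin 3) ⊕ TT 4 4 → KK,
      (∀ j n, θ (Sum.inl (j, n)) = (q' j).coeff n) ∧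
      (∀ i j, θ (Sum.inr (Sum.inl (i, j))) = w' i (j + 1)) ∧
      (∀ s, θ (Sum.inr (Sum.inr s)) = MvPolynomial.coeff (ft s) H) :=
    ⟨fun x => match x with
      | Sum.inl (j, n) => (q' j).coeff n
      | Sum.inr (Sum.inl (i, j)) => w' i (j + 1)
      | Sum.inr (Sum.inr s) => MvPolynomial.coeff (ft s) H,
      fun _ _ => rfl, fun _ _ => rfl, fun _ => rfl⟩
  apply not_fill E2 rfl rfl (ι := (Fin 4 × Fin 4) ⊕ (Fin 4 × Fin 3) ⊕ TT 4 4) (by
    rw [Fintype.card_sum, Fintype.card_sum, Fintype.card_prod, Fintype.card_prod,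
      Fintype.card_fin, Fintype.card_fin, card_TT44]
    norm_num) θ
  have hθ : ∀ x, θ x ∈ Algebra.adjoin ℂ (Set.range θ) := fun x =>
    Algebra.subset_adjoin ⟨x, rfl⟩
  rw [← mem_PSub, hout]
  refine form_mem H (hH ▸ QH_hom 4 6 4 a) _ ?_ _ ?_
  · intro s
    rw [← hθ3]
    exact hθ _
  · intro i
    apply Subsemiring.pow_mem
    rw [hu']
    refine sum_mem_PSub (d := 4) (w' i) (hw0 i) ?_ q' hqd hq1 ?_
    · intro j hj
      have := hθ2 i ⟨j, by omega⟩
      simp only at this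
      rw [← this]
      exact hθ _
    · intro j hj m hm
      have := hθ1 ⟨j, hj⟩ ⟨m, hm⟩
      simp only at this
      rw [← this]
      exact hθ _

theorem not_fill_E3 : ¬ Fill E3 := by
  choose β u' hβ hu hud hu1 using
    fun i => normal (natDegree_q4 5 i) (coeff_q4_ne 5 (by norm_num) i)
  choose γ w' hw0 hl using fun l => normal_sum (Wg 4 l) (Wg_ne 4 l 0) (q4 5) u' β hβ hu 4
  obtain ⟨v', hv'⟩ : ∃ v' : ℕ → Polynomial KK,
      ∀ i, v' i = ∑ j ∈ range 4, Polynomial.C (w' i j) * u' j ^ 2 := ⟨_, fun _ => rfl⟩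
  obtain ⟨a, ha⟩ : ∃ a : ℕ → ℕ → KK, ∀ k l, a k l = Wg 5 k l * γ l ^ 2 := ⟨_, fun _ _ => rfl⟩
  obtain ⟨H, hH⟩ : ∃ H, H = QQ 5 4 a := ⟨_, rfl⟩
  have hout : outP E3 (fun k a b => Wg (k : ℕ) a b) 0 =
      MvPolynomial.aeval (fun i : Fin 5 => (fun i : ℕ => v' i ^ 2) i) H := by
    rw [hH, aeval_QQ 5 4 a (fun i => v' i ^ 2), out_E3]
    refine Finset.sum_congr rfl fun k _ => ?_
    congr 2
    refine Finset.sum_congr rfl fun l _ => ?_
    rw [ha, hl l, ← hv', Polynomial.C_mul, Polynomial.C_pow]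
    ring
  obtain ⟨θ, hθ1, hθ2, hθ3⟩ : ∃ θ : (Fin 4 × Fin 8) ⊕ (Fin 5 × Fin 3) ⊕ TT 5 2 → KK,
      (∀ j n, θ (Sum.inl (j, n)) = (u' j).coeff n) ∧
      (∀ i j, θ (Sum.inr (Sum.inl (i, j))) = w' i (j + 1)) ∧
      (∀ s, θ (Sum.inr (Sum.inr s)) = MvPolynomial.coeff (ft s) H) :=
    ⟨fun x => match x with
      | Sum.inl (j, n) => (u' j).coeff n
      | Sum.inr (Sum.inl (i, j)) => w' i (j + 1)
      | Sum.inr (Sum.inr s) => MvPolynomial.coeff (ft s) H,
      fun _ _ => rfl, fun _ _ => rfl, fun _ => rfl⟩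
  apply not_fill E3 rfl rfl (ι := (Fin 4 × Fin 8) ⊕ (Fin 5 × Fin 3) ⊕ TT 5 2) (by
    rw [Fintype.card_sum, Fintype.card_sum, Fintype.card_prod, Fintype.card_prod,
      Fintype.card_fin, Fintype.card_fin, Fintype.card_fin, Fintype.card_fin, card_TT52]
    norm_num) θ
  have hθ : ∀ x, θ x ∈ Algebra.adjoin ℂ (Set.range θ) := fun x =>
    Algebra.subset_adjoin ⟨x, rfl⟩
  rw [← mem_PSub, hout]
  refine form_mem H (hH ▸ QQ_hom 5 4 a) _ ?_ _ ?_
  · intro s
    rw [← hθ3]
    exact hθ _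
  · intro i
    apply Subsemiring.pow_mem
    rw [hv']
    refine sum_mem_PSub (d := 8) (w' i) (hw0 i) ?_ u' hud hu1 ?_
    · intro j hj
      have := hθ2 i ⟨j, by omega⟩
      simp only at this
      rw [← this]
      exact hθ _
    · intro j hj m hm
      have := hθ1 ⟨j, hj⟩ ⟨m, hm⟩
      simp only at this
      rw [← this]
      exact hθ _

end Pool.Agent.R846.PNN
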