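import Mathlib

/-!
The Jacobian criterion: polynomials over `ℂ` with a nonvanishing Jacobian minor are
algebraically independent.
-/

set_option autoImplicit false

open Finset MvPolynomial

namespace Pool.Agent.R846.PNN

section Jac

variable {σ : Type*} {N : ℕ}

lemma pderiv_aeval (F : Fin N → MvPolynomial σ ℂ) (i : σ) (P : MvPolynomial (Fin N) ℂ) :
    pderiv i (aeval F P) = ∑ j, pderiv i (F j) * aeval F (pderiv j P) := by
  classical
  induction P using MvPolynomial.induction_on with
  | C a => simp [algebraMap_eq]
  | add p q hp hq => simp only [map_add, hp, hq, mul_add, Finset.sum_add_distrib]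
  | mul_X p k hp =>
    simp only [map_mul, aeval_X, pderiv_mul, hp, map_add]
    simp only [mul_add, Finset.sum_add_distrib]
    congr 1
    · rw [Finset.sum_mul]
      exact Finset.sum_congr rfl fun j _ => by ring
    · rw [Finset.sum_eq_single k]
      · rw [pderiv_X_self, map_one]; ring
      · intro j _ hj
        rw [pderiv_X_of_ne hj.symm]; simp
      · simp

lemma totalDegree_pderiv_le {τ : Type*} (j : τ) (P : MvPolynomial τ ℂ) (n : ℕ)
    (h : P.totalDegree ≤ n + 1) : (pderiv j P).totalDegree ≤ n := by
  classical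
  rw [totalDegree]
  apply Finset.sup_le
  intro m hm
  rw [mem_support_iff, coeff_pderiv] at hm
  have h1 : coeff (m + Finsupp.single j 1) P ≠ 0 := left_ne_zero_of_mul hm
  have h2 := le_totalDegree (mem_support_iff.2 h1)
  have h3 : ((m + Finsupp.single j 1).sum fun _ e => e) = (m.sum fun _ e => e) + 1 := by
    rw [Finsupp.sum_add_index' (by simp) (by simp)]
    simp
  rw [h3] at h2
  omega

lemma eq_C_of_pderiv {τ : Type*} (P : MvPolynomial τ ℂ) (h : ∀ j, pderiv j P = 0) :
    P = C (coeff 0 P) := by
  classical
  ext m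
  rw [coeff_C]
  split_ifs with h0
  · rw [h0]
  · obtain ⟨j, hj⟩ : ∃ j, m j ≠ 0 := by
      by_contra hc
      push Not at hc
      exact h0 (Finsupp.ext fun j => (hc j).symm)
    have h1 := congrArg (coeff (m - Finsupp.single j 1)) (h j)
    rw [coeff_pderiv, coeff_zero] at h1
    have h2 : m - Finsupp.single j 1 + Finsupp.single j 1 = m := by
      apply tsub_add_cancel_of_le
      rw [Finsupp.single_le_iff]
      omega
    rw [h2] at h1
    rcases mul_eq_zero.1 h1 with h3 | h3
    · exact h3
    · exfalso
      exact Nat.cast_add_one_ne_zero _ h3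

theorem jac (F : Fin N → MvPolynomial σ ℂ) (idx : Fin N → σ)
    (hdet : (Matrix.of fun a j => pderiv (idx a) (F j)).det ≠ 0) :
    ∀ (n : ℕ) (P : MvPolynomial (Fin N) ℂ), P.totalDegree ≤ n → aeval F P = 0 → P = 0 := by
  intro n
  induction n with
  | zero =>
    intro P hP h
    rw [Nat.le_zero, totalDegree_eq_zero_iff_eq_C] at hP
    rw [hP, aeval_C, algebraMap_eq, C_eq_zero] at h
    rw [hP, h, C_0]
  | succ n ih =>
    intro P hP h
    have hy : (fun j => aeval F (pderiv j P)) = 0 := by
      apply Matrix.eq_zero_of_mulVec_eq_zero hdet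
      funext a
      have := pderiv_aeval F (idx a) P
      rw [h, map_zero] at this
      simp only [Matrix.mulVec, dotProduct, Matrix.of_apply, Pi.zero_apply]
      exact this.symm
    have hz : ∀ j, pderiv j P = 0 := fun j =>
      ih _ (totalDegree_pderiv_le j P n hP) (congrFun hy j)
    have hC := eq_C_of_pderiv P hz
    rw [hC, aeval_C, algebraMap_eq, C_eq_zero] at h
    rw [hC, h, C_0]

end Jac

end Pool.Agent.R846.PNN
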