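import Pool.Agent.R846.PNN.Basic
import Pool.Agent.R846.PNN.Data
import Pool.Agent.R846.PNN.Jac

/-!
The network of depth seven with quadratic activation and widths `(2,3,4,5,4,6,4,1)` is filling.
-/

set_option autoImplicit false

open Finset MvPolynomial

namespace Pool.Agent.R846.PNN

/-- the widths -/
def dst : Fin 8 → ℕ := ![2, 3, 4, 5, 4, 6, 4, 1]

section Lev

variable {B B' : Type*} [CommRing B] [CommRing B']

/-- the levels of the network -/
def lev (W : ℕ → ℕ → ℕ → B) (x : ℕ → B) : ℕ → ℕ → B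
  | 0 => x
  | 1 => lay0 (Data.e 0) (W 0) x
  | (k + 2) => lay (Data.e (k + 1)) (W (k + 1)) (lev W x (k + 1))

lemma net_dst (W : ℕ → ℕ → ℕ → B) (x : ℕ → B) :
    net dst (fun (k : Fin 7) a b => W (k : ℕ) a b) x = lev W x 7 := by
  rw [net_eq]
  rfl

lemma map_lev (φ : B →+* B') (W : ℕ → ℕ → ℕ → B) (x : ℕ → B) (l a : ℕ) :
    φ (lev W x l a) = lev (fun k a b => φ (W k a b)) (fun b => φ (x b)) l a := by
  induction l using Nat.strong_induction_on generalizing a with
  | _ l ih =>
    rcases l with _ | _ | l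
    · rfl
    · exact map_lay0 φ _ _ _ _
    · unfold lev
      rw [map_lay]
      unfold lay
      refine Finset.sum_congr rfl fun b _ => ?_
      beta_reduce
      rw [ih (l + 1) (by omega)]

end Lev

/-! ### Degrees -/

section Degree

open Polynomial in
lemma natDegree_lay0 {R : Type*} [CommRing R] (n : ℕ) (W : ℕ → ℕ → R) (x : ℕ → Polynomial R)
    {d : ℕ} (hx : ∀ b, (x b).natDegree ≤ d) (a : ℕ) :
    (lay0 n (fun a b => Polynomial.C (W a b)) x a).natDegree ≤ d := by
  unfold lay0
  refine Polynomial.natDegree_sum_le_of_forall_le _ _ fun b _ => ?_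
  exact (Polynomial.natDegree_C_mul_le _ _).trans (hx b)

lemma natDegree_lay {R : Type*} [CommRing R] (n : ℕ) (W : ℕ → ℕ → R) (x : ℕ → Polynomial R)
    {d : ℕ} (hx : ∀ b, (x b).natDegree ≤ d) (a : ℕ) :
    (lay n (fun a b => Polynomial.C (W a b)) x a).natDegree ≤ 2 * d := by
  unfold lay
  refine Polynomial.natDegree_sum_le_of_forall_le _ _ fun b _ => ?_
  refine (Polynomial.natDegree_C_mul_le _ _).trans ?_
  refine Polynomial.natDegree_pow_le.trans ?_
  exact Nat.mul_le_mul_left 2 (hx b)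

lemma natDegree_xP {R : Type*} [CommRing R] (b : ℕ) : (xP R b).natDegree ≤ 1 := by
  unfold xP
  split_ifs
  · exact Polynomial.natDegree_X_le
  · simp

lemma natDegree_outP {R : Type*} [CommRing R] (e : Fin 8 → ℕ) (W : Fin 7 → ℕ → ℕ → R) (a : ℕ) :
    (outP e W a).natDegree ≤ 64 := by
  unfold outP
  rw [net_eq]
  exact natDegree_lay _ _ _ (natDegree_lay _ _ _ (natDegree_lay _ _ _ (natDegree_lay _ _ _
    (natDegree_lay _ _ _ (natDegree_lay _ _ _ (natDegree_lay0 _ _ _ natDegree_xP)))))) a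

end Degree

/-! ### The Jacobian matrix at the chosen point -/

/-- the ring of weights -/
abbrev A := MvPolynomial (ℕ × ℕ × ℕ) ℤ

/-- the generic weights -/
noncomputable def WX (k a b : ℕ) : A := X (k, a, b)

/-- the inputs -/
noncomputable def xs (s : ℕ) (b : ℕ) : A := if b = 0 then (s : A) else 1

/-- the levels of the generic network at the point `s` -/
noncomputable def LV (s l a : ℕ) : A := lev WX (xs s) l a

/-- evaluation at the chosen weights modulo `101` -/
noncomputable def phi : A →+* ZMod 101 :=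
  eval₂Hom (Int.castRingHom (ZMod 101)) (fun i => ((Data.w i.1 i.2.1 i.2.2 : ℕ) : ZMod 101))

lemma phi_WX (k a b : ℕ) : phi (WX k a b) = (Data.w k a b : ℕ) := by
  simp [phi, WX]

lemma LV_zero (s a : ℕ) : LV s 0 a = xs s a := rfl

lemma LV_one (s a : ℕ) : LV s 1 a = ∑ b ∈ range (Data.e 0), WX 0 a b * xs s b := rfl

lemma LV_succ (s k a : ℕ) :
    LV s (k + 2) a = ∑ b ∈ range (Data.e (k + 1)), WX (k + 1) a b * LV s (k + 1) b ^ 2 := rfl

lemma cast_mod (x : ℕ) : ((x % 101 : ℕ) : ZMod 101) = x := ZMod.natCast_mod x 101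

lemma phi_LV {s : ℕ} (hs : s < 65) (l : ℕ) (hl : l < 8) (a : ℕ) (ha : a < Data.e l) :
    phi (LV s l a) = (Data.eta s l a : ℕ) := by
  induction l using Nat.strong_induction_on generalizing a with
  | _ l ih =>
    rcases l with _ | _ | l
    · rw [LV_zero]
      have h2 : Data.e 0 = 2 := rfl
      rw [h2] at ha
      have := Data.chk_eta0 s hs
      interval_cases a
      · rw [this.1]; simp [xs]
      · rw [this.2]; simp [xs]
    · rw [LV_one, Data.chk_eta1 s hs a ha, cast_mod, map_sum, Nat.cast_sum]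
      refine Finset.sum_congr rfl fun b hb => ?_
      have := ih 0 (by omega) (by omega) b (Finset.mem_range.1 hb)
      rw [LV_zero] at this
      rw [map_mul, phi_WX, this, Nat.cast_mul]
    · rw [LV_succ, Data.chk_eta s hs l (by omega) a ha, cast_mod, map_sum, Nat.cast_sum]
      refine Finset.sum_congr rfl fun b hb => ?_
      have := ih (l + 1) (by omega) (by omega) b (Finset.mem_range.1 hb)
      rw [map_mul, map_pow, phi_WX, this]
      push_cast
      ring

lemma pd_WX_ne {i : ℕ × ℕ × ℕ} {k : ℕ} (h : k ≠ i.1) (a b : ℕ) : pderiv i (WX k a b) = 0 := by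
  unfold WX
  apply pderiv_X_of_ne
  rintro rfl
  exact h rfl

lemma pd_LV_low (i : ℕ × ℕ × ℕ) (s l a : ℕ) (hl : l ≤ i.1) : pderiv i (LV s l a) = 0 := by
  induction l using Nat.strong_induction_on generalizing a with
  | _ l ih =>
    rcases l with _ | _ | l
    · rw [LV_zero]
      unfold xs
      split_ifs
      · rw [← map_natCast (C : ℤ →+* A), pderiv_C]
      · exact pderiv_one
    · rw [LV_one, map_sum]
      refine Finset.sum_eq_zero fun b _ => ?_
      have := ih 0 (by omega) b (by omega)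
      rw [LV_zero] at this
      rw [pderiv_mul, pd_WX_ne (by omega), this]
      simp
    · rw [LV_succ, map_sum]
      refine Finset.sum_eq_zero fun b _ => ?_
      rw [pderiv_mul, pd_WX_ne (by omega), pderiv_pow, ih (l + 1) (by omega) b (by omega)]
      simp

lemma pd_LV_eq (i : ℕ × ℕ × ℕ) (hi : 0 < i.1) (hb : i.2.2 < Data.e i.1) (s a : ℕ) :
    pderiv i (LV s (i.1 + 1) a) = if a = i.2.1 then LV s i.1 i.2.2 ^ 2 else 0 := by
  obtain ⟨k, a0, b0⟩ := i
  obtain ⟨k, rfl⟩ : ∃ k', k = k' + 1 := ⟨k - 1, by simp only at hi; omega⟩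
  simp only at hb ⊢
  rw [LV_succ, map_sum]
  have h1 : ∀ b ∈ range (Data.e (k + 1)),
      pderiv (k + 1, a0, b0) (WX (k + 1) a b * LV s (k + 1) b ^ 2) =
      if b = b0 then (if a = a0 then LV s (k + 1) b0 ^ 2 else 0) else 0 := by
    intro b _
    rw [pderiv_mul, pderiv_pow, pd_LV_low (k + 1, a0, b0) s (k + 1) b le_rfl]
    simp only [mul_zero, add_zero]
    unfold WX
    by_cases hbb : b = b0
    · subst hbb
      rw [if_pos rfl]
      by_cases haa : a = a0
      · subst haa
        rw [if_pos rfl, pderiv_X_self, one_mul]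
      · rw [if_neg haa, pderiv_X_of_ne, zero_mul]
        intro h
        exact haa (congrArg (fun p => p.2.1) h)
    · rw [if_neg hbb, pderiv_X_of_ne, zero_mul]
      intro h
      exact hbb (congrArg (fun p => p.2.2) h)
  rw [Finset.sum_congr rfl h1, Finset.sum_ite_eq', if_pos (Finset.mem_range.2 hb)]

lemma pd_LV_high (i : ℕ × ℕ × ℕ) (s l a : ℕ) (hl : i.1 ≤ l) :
    pderiv i (LV s (l + 2) a) = ∑ b ∈ range (Data.e (l + 1)),
      WX (l + 1) a b * (2 * LV s (l + 1) b * pderiv i (LV s (l + 1) b)) := by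
  rw [LV_succ, map_sum]
  refine Finset.sum_congr rfl fun b _ => ?_
  rw [pderiv_mul, pderiv_pow, pd_WX_ne (by omega)]
  push_cast
  ring

lemma backprop {s : ℕ} (hs : s < 65) (i : ℕ × ℕ × ℕ) (n : ℕ) :
    ∀ l, l + n = 7 → i.1 + 1 ≤ l →
      ∑ b ∈ range (Data.e l), (Data.gam s l b : ZMod 101) * phi (pderiv i (LV s l b)) =
        phi (pderiv i (LV s 7 0)) := by
  induction n with
  | zero =>
    intro l hl _
    obtain rfl : l = 7 := by omega
    have h1 : Data.e 7 = 1 := rfl
    rw [h1, Finset.sum_range_one, Data.chk_gam7 s hs]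
    simp
  | succ n ih =>
    intro l hl hil
    rw [← ih (l + 1) (by omega) (by omega)]
    obtain ⟨k, rfl⟩ : ∃ k, l = k + 1 := ⟨l - 1, by omega⟩
    have h1 : ∀ a, phi (pderiv i (LV s (k + 2) a)) = ∑ b ∈ range (Data.e (k + 1)),
        (Data.w (k + 1) a b : ZMod 101) *
          (2 * phi (LV s (k + 1) b) * phi (pderiv i (LV s (k + 1) b))) := by
      intro a
      rw [pd_LV_high i s k a (by omega), map_sum]
      refine Finset.sum_congr rfl fun b _ => ?_
      rw [map_mul, map_mul, map_mul, phi_WX, map_ofNat]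
    have h2 : ∀ b ∈ range (Data.e (k + 1)),
        (Data.gam s (k + 1) b : ZMod 101) * phi (pderiv i (LV s (k + 1) b)) =
        ∑ a ∈ range (Data.e (k + 2)), (Data.gam s (k + 2) a : ZMod 101) *
          ((Data.w (k + 1) a b : ZMod 101) *
          (2 * phi (LV s (k + 1) b) * phi (pderiv i (LV s (k + 1) b)))) := by
      intro b hb
      rw [phi_LV hs (k + 1) (by omega) b (Finset.mem_range.1 hb),
        Data.chk_gam s hs k (by omega) b (Finset.mem_range.1 hb), cast_mod]
      push_cast
      rw [Finset.sum_mul, Finset.sum_mul]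
      exact Finset.sum_congr rfl fun a _ => by ring
    rw [Finset.sum_congr rfl h2, Finset.sum_comm]
    refine Finset.sum_congr rfl fun a _ => ?_
    rw [show k + 1 + 1 = k + 2 from rfl, h1, Finset.mul_sum]

lemma entry {s i : ℕ} (hs : s < 65) (hi : i < 65) :
    phi (pderiv (Data.dir i) (LV s 7 0)) = (Data.t s i : ℕ) := by
  obtain ⟨h0, h7, ha, hb⟩ := Data.chk_dir i hi
  rw [← backprop hs (Data.dir i) (7 - ((Data.dir i).1 + 1)) ((Data.dir i).1 + 1) (by omega) le_rfl]
  have h1 : ∀ b ∈ range (Data.e ((Data.dir i).1 + 1)),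
      (Data.gam s ((Data.dir i).1 + 1) b : ZMod 101) *
        phi (pderiv (Data.dir i) (LV s ((Data.dir i).1 + 1) b)) =
      if b = (Data.dir i).2.1 then (Data.gam s ((Data.dir i).1 + 1) (Data.dir i).2.1 : ZMod 101) *
        (Data.eta s (Data.dir i).1 (Data.dir i).2.2 : ZMod 101) ^ 2 else 0 := by
    intro b _
    rw [pd_LV_eq _ h0 hb]
    split_ifs with h
    · rw [h, map_pow, phi_LV hs _ (by omega) _ hb]
    · simp
  rw [Finset.sum_congr rfl h1, Finset.sum_ite_eq', if_pos (Finset.mem_range.2 ha),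
    Data.chk_t s hs i hi, cast_mod]
  push_cast
  ring

/-! ### The determinant -/

lemma dot_eq : ∀ (n : ℕ) (l m : List ℕ), l.length = n → m.length = n →
    Data.dot l m = ∑ i ∈ range n, l.getD i 0 * m.getD i 0 := by
  intro n
  induction n with
  | zero =>
    intro l m hl hm
    rw [List.length_eq_zero_iff] at hl hm
    subst hl hm
    simp [Data.dot]
  | succ n ih =>
    intro l m hl hm
    obtain ⟨a, l, rfl⟩ := List.exists_cons_of_length_eq_add_one hl
    obtain ⟨b, m, rfl⟩ := List.exists_cons_of_length_eq_add_one hm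
    rw [Finset.sum_range_succ', Data.dot, ih l m (by simpa using hl) (by simpa using hm)]
    simp [add_comm]

/-- partial derivatives at the points -/
noncomputable def Emat : Matrix (Fin 65) (Fin 65) A :=
  Matrix.of fun i s => pderiv (Data.dir i) (LV s 7 0)

lemma Emat_det : Emat.det ≠ 0 := by
  have h1 : (Matrix.of fun (s' i : Fin 65) => ((Data.ninv s' i : ℕ) : ZMod 101)) *
      (phi.mapMatrix Emat) = 1 := by
    ext s' s
    rw [Matrix.mul_apply]
    simp only [Matrix.of_apply, RingHom.mapMatrix_apply, Matrix.map_apply, Emat]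
    have h2 : ∀ i : Fin 65, ((Data.ninv s' i : ℕ) : ZMod 101) *
        phi (pderiv (Data.dir i) (LV s 7 0)) = ((Data.ninv s' i * Data.t s i : ℕ) : ZMod 101) := by
      intro i
      rw [entry s.2 i.2, Nat.cast_mul]
    rw [Finset.sum_congr rfl fun i _ => h2 i, ← Nat.cast_sum,
      Fin.sum_univ_eq_sum_range (fun i => Data.ninv s' i * Data.t s i) 65]
    have h3 : ∑ i ∈ range 65, Data.ninv s' i * Data.t s i =
        Data.dot (Data.N.getD s' []) (Data.T.getD s []) :=
      (dot_eq 65 _ _ (Data.chk_lenN s' s'.2) (Data.chk_lenT s s.2)).symm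
    rw [h3, ← cast_mod, Data.chk_inv s' s'.2 s s.2, Matrix.one_apply]
    by_cases h : s' = s
    · simp [h]
    · rw [if_neg h, if_neg (fun h' => h (Fin.ext h'))]
      simp
  intro h
  have h2 := congrArg Matrix.det h1
  have : Fact (Nat.Prime 101) := ⟨by norm_num⟩
  rw [Matrix.det_mul, ← RingHom.map_det, h, map_zero, mul_zero, Matrix.det_one] at h2
  exact zero_ne_one h2

/-- the coefficients of the output of the generic network -/
noncomputable def FR (R : Type) [CommRing R] (j : ℕ) : MvPolynomial (ℕ × ℕ × ℕ) R :=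
  (outP dst (fun k a b => (X ((k : ℕ), a, b) : MvPolynomial (ℕ × ℕ × ℕ) R)) 0).coeff j

lemma eval_out (s : ℕ) :
    (outP dst (fun k a b => (X ((k : ℕ), a, b) : A)) 0).eval (s : A) = LV s 7 0 := by
  have := map_net (Polynomial.evalRingHom (s : A)) dst
    (fun k a b => Polynomial.C (X ((k : ℕ), a, b) : A)) (xP A) 0
  rw [Polynomial.coe_evalRingHom] at this
  unfold outP
  rw [this]
  simp only [Polynomial.eval_C]
  have h2 := net_dst WX (xs s)
  unfold LV
  rw [← h2]
  congr 1
  funext b
  unfold xP xs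
  split_ifs <;> simp

lemma sum_FR (s : ℕ) : ∑ j : Fin 65, FR ℤ j * (s : A) ^ (j : ℕ) = LV s 7 0 := by
  rw [← eval_out, Polynomial.eval_eq_sum_range' (n := 65)
    (lt_of_le_of_lt (natDegree_outP _ _ _) (by norm_num)),
    Fin.sum_univ_eq_sum_range (fun j => FR ℤ j * (s : A) ^ j) 65]
  rfl

lemma detZ : (Matrix.of fun (i j : Fin 65) => pderiv (Data.dir i) (FR ℤ j)).det ≠ 0 := by
  have h1 : (Matrix.of fun (i j : Fin 65) => pderiv (Data.dir i) (FR ℤ j)) *
      (Matrix.of fun (j s : Fin 65) => ((s : ℕ) : A) ^ (j : ℕ)) = Emat := by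
    ext1 i s
    rw [Matrix.mul_apply]
    simp only [Matrix.of_apply, Emat]
    rw [← sum_FR, map_sum]
    refine Finset.sum_congr rfl fun j _ => ?_
    rw [pderiv_mul]
    have : pderiv (Data.dir i) (((s : ℕ) : A) ^ (j : ℕ)) = 0 := by
      rw [← map_natCast (C : ℤ →+* A), ← map_pow, pderiv_C]
    rw [this, mul_zero, add_zero]
  intro h
  apply Emat_det
  rw [← h1, Matrix.det_mul, h, zero_mul]

lemma map_FR (j : ℕ) : MvPolynomial.map (Int.castRingHom ℂ) (FR ℤ j) = FR ℂ j := by
  unfold FR outP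
  rw [← Polynomial.coeff_map]
  have := map_net (Polynomial.mapRingHom (MvPolynomial.map (σ := ℕ × ℕ × ℕ) (Int.castRingHom ℂ)))
    dst (fun k a b => Polynomial.C (X ((k : ℕ), a, b) : A)) (xP A) 0
  rw [Polynomial.coe_mapRingHom] at this
  rw [this]
  congr 2
  · funext k a b
    simp
  · funext b
    unfold xP
    split_ifs <;> simp

lemma detC : (Matrix.of fun (i j : Fin 65) => pderiv (Data.dir i) (FR ℂ j)).det ≠ 0 := by
  have h1 : (MvPolynomial.map (σ := ℕ × ℕ × ℕ) (Int.castRingHom ℂ)).mapMatrix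
      (Matrix.of fun (i j : Fin 65) => pderiv (Data.dir i) (FR ℤ j)) =
      (Matrix.of fun (i j : Fin 65) => pderiv (Data.dir i) (FR ℂ j)) := by
    ext1 i j
    simp only [RingHom.mapMatrix_apply, Matrix.map_apply, Matrix.of_apply]
    rw [← map_FR, pderiv_map]
  rw [← h1, ← RingHom.map_det]
  intro h
  apply detZ
  apply MvPolynomial.map_injective (Int.castRingHom ℂ) (Int.cast_injective (α := ℂ))
  rw [h, map_zero]

lemma eval_FR (w : ℕ × ℕ × ℕ → ℂ) (j : ℕ) :
    eval w (FR ℂ j) = (outP dst (fun k a b => w ((k : ℕ), a, b)) 0).coeff j := by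
  unfold FR outP
  rw [← Polynomial.coeff_map]
  have := map_net (Polynomial.mapRingHom (eval w))
    dst (fun k a b => Polynomial.C (X ((k : ℕ), a, b) : MvPolynomial (ℕ × ℕ × ℕ) ℂ)) (xP _) 0
  rw [Polynomial.coe_mapRingHom] at this
  rw [this]
  congr 2
  · funext k a b
    simp
  · funext b
    unfold xP
    split_ifs <;> simp

theorem fill_dst : Fill dst := by
  rw [fill_iff dst rfl rfl]
  intro P hP
  refine jac (fun j : Fin 65 => FR ℂ j) (fun i : Fin 65 => Data.dir i) detC P.totalDegree P le_rfl ?_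
  apply MvPolynomial.funext
  intro w
  rw [map_zero]
  have h1 := hP (fun k a b => w ((k : ℕ), a, b))
  have h2 : eval w (aeval (fun j : Fin 65 => FR ℂ j) P) =
      eval (fun j : Fin 65 => eval w (FR ℂ j)) P := by
    have : (eval w).comp ((aeval (fun j : Fin 65 => FR ℂ j)) :
        MvPolynomial (Fin 65) ℂ →ₐ[ℂ] _).toRingHom = eval (fun j : Fin 65 => eval w (FR ℂ j)) := by
      apply MvPolynomial.ringHom_ext
      · intro r; simp
      · intro j; simp
    exact congrArg (fun f => f P) this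
  rw [h2]
  simp only [eval_FR]
  exact h1

end Pool.Agent.R846.PNN
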